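import Pool.Agent.helper5.IH.Spec

set_option autoImplicit false

namespace Pool.Agent.IH
open Finset CT SYM

private lemma MU1_aux {V : Type} [DecidableEq V] (H : SimpleGraph V) (t : V → Fin 3) (v x : V)
    (htv : t v = 0) (hadj : H.Adj v x) (htx : t x ≠ 0) (σ σ' : Equiv.Perm V)
    (hv : σ v = x) (hx : σ x = v) (h'v : σ' v = v) (h'x : σ' x = x)
    (hw : ∀ w, w ≠ v → w ≠ x → σ' w = σ w) :
    (Mt H σ ∧ Cp (Function.update t v 1) σ) ↔ (Mt H σ' ∧ Cp (Function.update t x 0) σ') := by
  have hxv : x ≠ v := fun h => H.irrefl (h ▸ hadj)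
  constructor
  · rintro ⟨⟨h1, h2⟩, h3⟩
    refine ⟨⟨fun w => ?_, fun w hne => ?_⟩, fun w => ?_⟩
    · by_cases h4 : w = v
      · rw [h4, h'v, h'v]
      by_cases h5 : w = x
      · rw [h5, h'x, h'x]
      rw [hw w h4 h5, hw (σ w) (fun h => h5 (by rw [← h1 w, h, hv])) (fun h => h4 (by rw [← h1 w, h, hx])), h1]
    · have h4 : w ≠ v := fun h => hne (by rw [h, h'v])
      have h5 : w ≠ x := fun h => hne (by rw [h, h'x])
      rw [hw w h4 h5] at hne ⊢
      exact h2 w hne
    · by_cases h4 : w = v
      · rw [h4, Function.update_of_ne hxv.symm, htv]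
        exact ⟨fun _ => h'v, fun h => absurd h (by decide)⟩
      by_cases h5 : w = x
      · rw [h5, Function.update_self]
        exact ⟨fun _ => h'x, fun h => absurd h (by decide)⟩
      have h6 := h3 w
      rw [Function.update_of_ne h4] at h6
      rw [Function.update_of_ne h5, hw w h4 h5]
      exact h6
  · rintro ⟨⟨h1, h2⟩, h3⟩
    refine ⟨⟨fun w => ?_, fun w hne => ?_⟩, fun w => ?_⟩
    · by_cases h4 : w = v
      · rw [h4, hv, hx]
      by_cases h5 : w = x
      · rw [h5, hx, hv]
      have h6 : σ' w ≠ v := fun h => h4 (by rw [← h1 w, h, h'v])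
      have h7 : σ' w ≠ x := fun h => h5 (by rw [← h1 w, h, h'x])
      have h8 := hw (σ' w) h6 h7
      rw [← hw w h4 h5, ← h8, h1]
    · by_cases h4 : w = v
      · rw [h4, hv]; exact hadj
      by_cases h5 : w = x
      · rw [h5, hx]; exact hadj.symm
      rw [← hw w h4 h5] at hne ⊢
      exact h2 w hne
    · by_cases h4 : w = v
      · rw [h4, Function.update_self, hv]
        exact ⟨fun h => absurd h (by decide), fun _ => hxv⟩
      by_cases h5 : w = x
      · rw [h5, Function.update_of_ne hxv, hx]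
        exact ⟨fun h => absurd h htx, fun _ => hxv.symm⟩
      have h6 := h3 w
      rw [Function.update_of_ne h5] at h6
      rw [Function.update_of_ne h4, ← hw w h4 h5]
      exact h6

private lemma MU1_card {α : Type} [Fintype α] (P : α → Prop) [DecidablePred P] :
    Nat.card {a // P a} = (univ.filter P).card := by
  rw [Nat.card_eq_fintype_card, Fintype.card_subtype]

theorem MU1 : MU1_stmt := by
  classical
  intro V _ _ H t v htv
  unfold mu
  rw [MU1_card, Finset.card_eq_sum_card_fiberwise (f := fun σ : Equiv.Perm V => σ v) (t := univ)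
    (fun σ _ => Finset.mem_coe.2 (mem_univ _))]
  refine sum_congr rfl fun x _ => ?_
  by_cases hc : H.Adj v x ∧ t x ≠ 0
  · have hxv : x ≠ v := fun h => H.irrefl (h ▸ hc.1)
    rw [if_pos hc, MU1_card]
    refine Finset.card_bij' (fun σ _ => σ * Equiv.swap v x) (fun σ _ => σ * Equiv.swap v x) ?_ ?_ ?_ ?_
    · intro σ hσ
      obtain ⟨h1, h2⟩ := mem_filter.1 hσ
      have h3 := (mem_filter.1 h1).2
      have h4 : σ x = v := by rw [← h2]; exact h3.1.1 v
      refine mem_filter.2 ⟨mem_univ _, ?_⟩
      refine (MU1_aux H t v x htv hc.1 hc.2 σ _ h2 h4 ?_ ?_ ?_).1 h3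
      · rw [Equiv.Perm.mul_apply, Equiv.swap_apply_left, h4]
      · rw [Equiv.Perm.mul_apply, Equiv.swap_apply_right]; exact h2
      · intro w hw1 hw2
        rw [Equiv.Perm.mul_apply, Equiv.swap_apply_of_ne_of_ne hw1 hw2]
    · intro σ hσ
      have h3 := (mem_filter.1 hσ).2
      have h4 : σ v = v := (h3.2 v).1 (by rw [Function.update_of_ne hxv.symm]; exact htv)
      have h5 : σ x = x := (h3.2 x).1 (by rw [Function.update_self])
      have h6 : (σ * Equiv.swap v x) v = x := by
        rw [Equiv.Perm.mul_apply, Equiv.swap_apply_left, h5]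
      refine mem_filter.2 ⟨mem_filter.2 ⟨mem_univ _, ?_⟩, h6⟩
      refine (MU1_aux H t v x htv hc.1 hc.2 _ σ h6 ?_ h4 h5 ?_).2 h3
      · rw [Equiv.Perm.mul_apply, Equiv.swap_apply_right, h4]
      · intro w hw1 hw2
        rw [Equiv.Perm.mul_apply, Equiv.swap_apply_of_ne_of_ne hw1 hw2]
    · intro σ _
      rw [mul_assoc, Equiv.swap_mul_self, mul_one]
    · intro σ _
      rw [mul_assoc, Equiv.swap_mul_self, mul_one]
  · rw [if_neg hc, Finset.card_eq_zero, Finset.filter_eq_empty_iff]
    intro σ hσ hx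
    have h3 := (mem_filter.1 hσ).2
    have h1 : σ v ≠ v := (h3.2 v).2 (by rw [Function.update_self])
    have hx' : σ v = x := hx
    rw [hx'] at h1
    apply hc
    refine ⟨?_, ?_⟩
    · have := h3.1.2 v (by rw [hx']; exact h1)
      rw [hx'] at this
      exact this
    · intro htx
      have h4 : σ x = x := (h3.2 x).1 (by rw [Function.update_of_ne h1]; exact htx)
      have h5 : σ x = v := by rw [← hx']; exact h3.1.1 v
      exact h1 (h4.symm.trans h5)

end Pool.Agent.IH
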